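import Pool.Agent.N203.ZE.Stm

/-!
# Points which are dependent on points with given first coordinates (helper368)
-/

set_option autoImplicit false
set_option linter.unusedSectionVars false

namespace Pool.Agent.N203.ZE

open Pool.Agent.N101.ZP (Sp)

namespace Alg_

/-- the last coordinate is transcendental over the others: it can be specialised arbitrarily -/
theorem sp_option {F K ι : Type} [Field F] [Field K] [Algebra F K] (p : ι → K) (q : K)
    (hq : Transcendental (Algebra.adjoin F (Set.range p)) q) (a : K) :
    Sp F (fun o : Option ι => o.elim q p) (fun o : Option ι => o.elim a p) := by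
  set A := Algebra.adjoin F (Set.range p) with hA
  have hp : ∀ i, p i ∈ A := fun i => Algebra.subset_adjoin ⟨i, rfl⟩
  set Φ : MvPolynomial (Option ι) F →ₐ[F] Polynomial A :=
    MvPolynomial.aeval (fun o : Option ι => o.elim Polynomial.X
      (fun i => Polynomial.C (⟨p i, hp i⟩ : A))) with hΦ
  have key : ∀ (b : K) (f : MvPolynomial (Option ι) F),
      MvPolynomial.aeval (fun o : Option ι => o.elim b p) f = Polynomial.aeval b (Φ f) := by
    intro b f
    have h1 : MvPolynomial.aeval (fun o : Option ι => o.elim b p) =
        ((Polynomial.aeval (R := A) b).restrictScalars F).comp Φ := by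
      apply MvPolynomial.algHom_ext
      intro o
      rw [MvPolynomial.aeval_X, AlgHom.comp_apply, hΦ, MvPolynomial.aeval_X]
      cases o with
      | none => simp
      | some i =>
        simp only [Option.elim_some, AlgHom.restrictScalars_apply, Polynomial.aeval_C]
        rfl
    rw [h1]
    rfl
  intro f hf
  rw [key] at hf ⊢
  have h2 : Φ f = 0 := by
    by_contra h0
    exact hq ⟨Φ f, h0, hf⟩
  rw [h2, map_zero]

/-- the signs -/
def sg (b : Bool) : ℤ := if b then 1 else -1

theorem sg_surj {e : ℤ} (he : e = 1 ∨ e = -1) : ∃ b, sg b = e := by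
  rcases he with rfl | rfl
  · exact ⟨true, rfl⟩
  · exact ⟨false, rfl⟩

end Alg_

open Alg_

theorem t_ALG (hS : S_SPEC) (hO : S_ORD) : S_ALG := by
  intro F _ _ _ W _ K ι _ _ _ _ p P q Q hP hQ N hN c hrel
  classical
  by_contra hq
  have hq' : Transcendental (Algebra.adjoin F (Set.range p)) q := hq
  -- the finite set
  set T : Set (Ept W K) := {0} ∪ Set.range (fun e : Option ι → Bool =>
    sg (e none) • ∑ i, (c i * sg (e (some i))) • P i) with hT
  have hTfin : T.Finite := (Set.finite_singleton 0).union (Set.finite_range _)
  have hmem : ∀ R : Ept W K, N • R ∈ T := by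
    intro R
    rcases Ept.cases R with rfl | ⟨a, y, h, rfl⟩
    · left
      rw [nsmul_zero]
      rfl
    · right
      obtain ⟨ε, hε, hrel'⟩ := hS F W K K (Option ι) (fun o => o.elim q p)
        (fun o => o.elim a p) (sp_option p q hq' a) (fun o => o.elim Q P)
        (fun o => o.elim (mkp h) P) (by
          intro o
          cases o with
          | none => exact hQ
          | some i => exact hP i) (by
          intro o
          cases o with
          | none => exact ⟨y, h, rfl⟩
          | some i => exact hP i)
      have h1 := hrel' (fun o => o.elim (N : ℤ) (fun i => -c i)) 0 (by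
        rw [Fintype.sum_option]
        simp only [Option.elim_none, Option.elim_some, natCast_zsmul, neg_smul,
          Finset.sum_neg_distrib, map_zero]
        rw [hrel, add_neg_cancel])
      rw [Fintype.sum_option, map_zero] at h1
      simp only [Option.elim_none, Option.elim_some] at h1
      obtain ⟨b, hb⟩ := sg_surj (hε none)
      choose b' hb' using fun i => sg_surj (hε (some i))
      refine ⟨fun o => o.elim b b', ?_⟩
      simp only [Option.elim_none, Option.elim_some, hb, hb']
      have h2 : ((N : ℤ) * ε none) • mkp h = ∑ i, (c i * ε (some i)) • P i := by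
        have h3 := eq_neg_of_add_eq_zero_left h1
        rw [h3, ← Finset.sum_neg_distrib]
        refine Finset.sum_congr rfl fun i _ => ?_
        rw [neg_mul, neg_smul, neg_neg]
      rw [← h2, smul_smul]
      have h4 : ε none * ((N : ℤ) * ε none) = (N : ℤ) := by
        rcases hε none with h5 | h5 <;> rw [h5] <;> ring
      rw [h4, natCast_zsmul]
  -- the orders
  obtain ⟨B, hB⟩ := (hTfin.image addOrderOf).bddAbove
  obtain ⟨R, hR⟩ := hO F W K (N * B + 1)
  have h1 : addOrderOf (N • R) ≤ B := hB ⟨N • R, hmem R, rfl⟩
  have h2 : (addOrderOf (N • R) * N) • R = 0 := by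
    rw [mul_smul]
    exact addOrderOf_nsmul_eq_zero (N • R)
  have h3 : 2 ^ (N * B + 1) ∣ addOrderOf (N • R) * N := by
    rw [← hR]
    exact addOrderOf_dvd_of_nsmul_eq_zero h2
  have h4 : 0 < addOrderOf (N • R) := by
    rw [addOrderOf_pos_iff]
    have h5 : 0 < addOrderOf R := by
      rw [hR]
      positivity
    rw [addOrderOf_pos_iff] at h5
    exact h5.nsmul
  have h5 := Nat.le_of_dvd (Nat.mul_pos h4 hN) h3
  have h6 : addOrderOf (N • R) * N ≤ B * N := Nat.mul_le_mul_right _ h1
  have h7 : N * B + 1 < 2 ^ (N * B + 1) := Nat.lt_two_pow_self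
  have h8 : B * N = N * B := mul_comm _ _
  omega

end Pool.Agent.N203.ZE
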