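import Mathlib

/-!
# Points of the elliptic curves `y² = x³ + a₂ x² + a₄ x + a₆`
-/

set_option autoImplicit false
set_option linter.unusedSectionVars false

namespace Pool.Agent.N203.ZE

open WeierstrassCurve

/-- The curve is an elliptic curve of the form `y² = x³ + a₂ x² + a₄ x + a₆`. -/
class Ell {F : Type} [Field F] (W : WeierstrassCurve F) : Prop where
  a₁ : W.a₁ = 0
  a₃ : W.a₃ = 0
  Δ : W.Δ ≠ 0

section

variable {F : Type} [Field F] (W : WeierstrassCurve F) (K : Type) [Field K] [Algebra F K]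

/-- the points of the curve over an extension field -/
def Ept : Type := (WeierstrassCurve.toAffine (W.baseChange K)).Point

noncomputable instance : AddCommGroup (Ept W K) := by
  classical
  exact inferInstanceAs (AddCommGroup (WeierstrassCurve.toAffine (W.baseChange K)).Point)

end

section

variable {F : Type} [Field F] {W : WeierstrassCurve F} {K L M : Type} [Field K] [Algebra F K]
  [Field L] [Algebra F L] [Field M] [Algebra F M]

/-- the equation of the curve -/
def OnC (W : WeierstrassCurve F) {K : Type} [Field K] [Algebra F K] (x y : K) : Prop :=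
  y ^ 2 = x ^ 3 + algebraMap F K W.a₂ * x ^ 2 + algebraMap F K W.a₄ * x + algebraMap F K W.a₆

variable (W) in
/-- the map on points of a homomorphism of fields -/
noncomputable def Ept.map (φ : K →ₐ[F] L) : Ept W K →+ Ept W L := by
  classical
  exact WeierstrassCurve.Affine.Point.map (W' := W.toAffine) φ

theorem Ept.map_injective (φ : K →ₐ[F] L) : Function.Injective (Ept.map W φ) := by
  classical
  exact WeierstrassCurve.Affine.Point.map_injective (W' := W.toAffine) φ

theorem Ept.map_comp (φ : K →ₐ[F] L) (ψ : L →ₐ[F] M) (P : Ept W K) :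
    Ept.map W ψ (Ept.map W φ P) = Ept.map W (ψ.comp φ) P := by
  classical
  exact WeierstrassCurve.Affine.Point.map_map (W' := W.toAffine) φ ψ P

theorem Ept.map_id (P : Ept W K) : Ept.map W (AlgHom.id F K) P = P := by
  classical
  cases P <;> rfl

variable [Ell W]

theorem OnC.nonsingular {x y : K} (h : OnC W x y) :
    (WeierstrassCurve.toAffine (W.baseChange K)).Nonsingular x y := by
  have hΔ : (WeierstrassCurve.toAffine (W.baseChange K)).Δ ≠ 0 := by
    change (W.map (algebraMap F K)).Δ ≠ 0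
    rw [WeierstrassCurve.map_Δ]
    exact (map_ne_zero _).2 Ell.Δ
  rw [← WeierstrassCurve.Affine.equation_iff_nonsingular_of_Δ_ne_zero hΔ,
    WeierstrassCurve.Affine.equation_iff]
  have e1 : (W.baseChange K).a₁ = 0 := by
    change algebraMap F K W.a₁ = 0
    rw [Ell.a₁ (W := W), map_zero]
  have e3 : (W.baseChange K).a₃ = 0 := by
    change algebraMap F K W.a₃ = 0
    rw [Ell.a₃ (W := W), map_zero]
  change y ^ 2 + (W.baseChange K).a₁ * x * y + (W.baseChange K).a₃ * y = x ^ 3 +
    algebraMap F K W.a₂ * x ^ 2 + algebraMap F K W.a₄ * x + algebraMap F K W.a₆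
  rw [e1, e3, ← h]
  ring

/-- the point with given coordinates -/
def mkp {x y : K} (h : OnC W x y) : Ept W K :=
  WeierstrassCurve.Affine.Point.some x y h.nonsingular

theorem Ept.cases (P : Ept W K) : P = 0 ∨ ∃ (x y : K) (h : OnC W x y), P = mkp h := by
  classical
  rcases P with _ | ⟨x, y, h⟩
  · exact Or.inl rfl
  · refine Or.inr ⟨x, y, ?_, rfl⟩
    have h1 := h.1
    rw [WeierstrassCurve.Affine.equation_iff] at h1
    have e1 : (W.baseChange K).a₁ = 0 := by
      change algebraMap F K W.a₁ = 0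
      rw [Ell.a₁ (W := W), map_zero]
    have e3 : (W.baseChange K).a₃ = 0 := by
      change algebraMap F K W.a₃ = 0
      rw [Ell.a₃ (W := W), map_zero]
    change y ^ 2 + (W.baseChange K).a₁ * x * y + (W.baseChange K).a₃ * y = x ^ 3 +
      algebraMap F K W.a₂ * x ^ 2 + algebraMap F K W.a₄ * x + algebraMap F K W.a₆ at h1
    rw [e1, e3] at h1
    rw [OnC, ← h1]
    ring

theorem mkp_ne_zero {x y : K} (h : OnC W x y) : mkp h ≠ 0 :=
  WeierstrassCurve.Affine.Point.some_ne_zero h.nonsingular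

theorem mkp_inj {x y x' y' : K} {h : OnC W x y} {h' : OnC W x' y'} :
    mkp h = mkp h' ↔ x = x' ∧ y = y' := by
  constructor
  · intro h1
    exact WeierstrassCurve.Affine.Point.some.inj h1
  · rintro ⟨rfl, rfl⟩
    rfl

theorem mkp_congr {x y x' y' : K} (h : OnC W x y) (hx : x = x') (hy : y = y') :
    ∃ h' : OnC W x' y', mkp h = mkp h' := by
  subst hx hy
  exact ⟨h, rfl⟩

theorem OnC.neg {x y : K} (h : OnC W x y) : OnC W x (-y) := by
  rw [OnC, neg_sq]
  exact h

theorem neg_mkp {x y : K} (h : OnC W x y) : -mkp h = mkp h.neg := by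
  classical
  have h1 : (WeierstrassCurve.toAffine (W.baseChange K)).negY x y = -y := by
    rw [WeierstrassCurve.Affine.negY]
    have e1 : (W.baseChange K).a₁ = 0 := by
      change algebraMap F K W.a₁ = 0
      rw [Ell.a₁ (W := W), map_zero]
    have e3 : (W.baseChange K).a₃ = 0 := by
      change algebraMap F K W.a₃ = 0
      rw [Ell.a₃ (W := W), map_zero]
    change -y - (W.baseChange K).a₁ * x - (W.baseChange K).a₃ = -y
    rw [e1, e3]
    ring
  have h2 : -mkp h = (WeierstrassCurve.Affine.Point.some _ _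
      ((WeierstrassCurve.Affine.nonsingular_neg ..).mpr h.nonsingular) :
      (WeierstrassCurve.toAffine (W.baseChange K)).Point) := rfl
  rw [h2]
  have h3 : ∀ {y' : K} (h' : (WeierstrassCurve.toAffine (W.baseChange K)).Nonsingular x y')
    (hy : y' = -y), (WeierstrassCurve.Affine.Point.some x y' h' :
      (WeierstrassCurve.toAffine (W.baseChange K)).Point) = mkp h.neg := by
    rintro y' h' rfl
    rfl
  exact h3 _ h1

/-- two points with the same first coordinate -/
theorem eq_or_neg {x y y' : K} (h : OnC W x y) (h' : OnC W x y') :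
    mkp h = mkp h' ∨ mkp h = -mkp h' := by
  rw [neg_mkp, mkp_inj, mkp_inj]
  have h1 : (y - y') * (y + y') = 0 := by
    have h2 : y ^ 2 = y' ^ 2 := h.trans h'.symm
    linear_combination h2
  rcases mul_eq_zero.1 h1 with h2 | h2
  · exact Or.inl ⟨rfl, sub_eq_zero.1 h2⟩
  · exact Or.inr ⟨rfl, by linear_combination h2⟩

theorem some_eq_mkp {x y x' y' : K}
    (h : (WeierstrassCurve.toAffine (W.baseChange K)).Nonsingular x y) (hx : x = x') (hy : y = y') :
    ∃ h' : OnC W x' y', (WeierstrassCurve.Affine.Point.some x y h :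
      (WeierstrassCurve.toAffine (W.baseChange K)).Point) = mkp h' := by
  subst hx hy
  rcases Ept.cases (W := W) (K := K) (WeierstrassCurve.Affine.Point.some x y h) with h1 | ⟨x', y', h', h1⟩
  · exact absurd h1 (WeierstrassCurve.Affine.Point.some_ne_zero h)
  · obtain ⟨rfl, rfl⟩ := WeierstrassCurve.Affine.Point.some.inj h1
    exact ⟨h', rfl⟩

/-- the sum of two points with different first coordinates -/
theorem add_mkp {x₁ y₁ x₂ y₂ : K} (h₁ : OnC W x₁ y₁) (h₂ : OnC W x₂ y₂) (hx : x₁ ≠ x₂) :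
    ∃ h₃ : OnC W (((y₁ - y₂) / (x₁ - x₂)) ^ 2 - algebraMap F K W.a₂ - x₁ - x₂)
      (-(((y₁ - y₂) / (x₁ - x₂)) * ((((y₁ - y₂) / (x₁ - x₂)) ^ 2 - algebraMap F K W.a₂ - x₁ - x₂) -
        x₁) + y₁)), mkp h₁ + mkp h₂ = mkp h₃ := by
  classical
  have e1 : (W.baseChange K).a₁ = 0 := by
    change algebraMap F K W.a₁ = 0
    rw [Ell.a₁ (W := W), map_zero]
  have e3 : (W.baseChange K).a₃ = 0 := by
    change algebraMap F K W.a₃ = 0
    rw [Ell.a₃ (W := W), map_zero]
  have h := WeierstrassCurve.Affine.Point.add_of_X_ne (h₁ := h₁.nonsingular)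
    (h₂ := h₂.nonsingular) hx
  have hX : (WeierstrassCurve.toAffine (W.baseChange K)).addX x₁ x₂
      ((WeierstrassCurve.toAffine (W.baseChange K)).slope x₁ x₂ y₁ y₂) =
      ((y₁ - y₂) / (x₁ - x₂)) ^ 2 - algebraMap F K W.a₂ - x₁ - x₂ := by
    rw [WeierstrassCurve.Affine.slope_of_X_ne hx, WeierstrassCurve.Affine.addX]
    change ((y₁ - y₂) / (x₁ - x₂)) ^ 2 + (W.baseChange K).a₁ * ((y₁ - y₂) / (x₁ - x₂)) -
      algebraMap F K W.a₂ - x₁ - x₂ = _
    rw [e1]
    ring
  have hY : (WeierstrassCurve.toAffine (W.baseChange K)).addY x₁ x₂ y₁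
      ((WeierstrassCurve.toAffine (W.baseChange K)).slope x₁ x₂ y₁ y₂) =
      (-(((y₁ - y₂) / (x₁ - x₂)) * ((((y₁ - y₂) / (x₁ - x₂)) ^ 2 - algebraMap F K W.a₂ - x₁ - x₂) -
        x₁) + y₁)) := by
    rw [WeierstrassCurve.Affine.addY, WeierstrassCurve.Affine.negY,
      WeierstrassCurve.Affine.negAddY, hX, WeierstrassCurve.Affine.slope_of_X_ne hx]
    change -(((y₁ - y₂) / (x₁ - x₂)) * ((((y₁ - y₂) / (x₁ - x₂)) ^ 2 - algebraMap F K W.a₂ - x₁ -
      x₂) - x₁) + y₁) - (W.baseChange K).a₁ * _ - (W.baseChange K).a₃ = _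
    rw [e1, e3]
    ring
  obtain ⟨h', h''⟩ := some_eq_mkp (W := W) _ hX hY
  exact ⟨h', h.trans h''⟩

/-- twice a point -/
theorem double_mkp {x y : K} (h : OnC W x y) (hy : 2 * y ≠ 0) :
    ∃ h₃ : OnC W (((3 * x ^ 2 + 2 * algebraMap F K W.a₂ * x + algebraMap F K W.a₄) / (2 * y)) ^ 2 -
        algebraMap F K W.a₂ - 2 * x)
      (-(((3 * x ^ 2 + 2 * algebraMap F K W.a₂ * x + algebraMap F K W.a₄) / (2 * y)) *
        ((((3 * x ^ 2 + 2 * algebraMap F K W.a₂ * x + algebraMap F K W.a₄) / (2 * y)) ^ 2 -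
        algebraMap F K W.a₂ - 2 * x) - x) + y)), mkp h + mkp h = mkp h₃ := by
  classical
  have e1 : (W.baseChange K).a₁ = 0 := by
    change algebraMap F K W.a₁ = 0
    rw [Ell.a₁ (W := W), map_zero]
  have e3 : (W.baseChange K).a₃ = 0 := by
    change algebraMap F K W.a₃ = 0
    rw [Ell.a₃ (W := W), map_zero]
  have hn : (WeierstrassCurve.toAffine (W.baseChange K)).negY x y = -y := by
    rw [WeierstrassCurve.Affine.negY]
    change -y - (W.baseChange K).a₁ * x - (W.baseChange K).a₃ = -y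
    rw [e1, e3]
    ring
  have hy' : y ≠ (WeierstrassCurve.toAffine (W.baseChange K)).negY x y := by
    rw [hn]
    intro h0
    apply hy
    linear_combination h0
  have h0 := WeierstrassCurve.Affine.Point.add_self_of_Y_ne (h₁ := h.nonsingular) hy'
  have hS : (WeierstrassCurve.toAffine (W.baseChange K)).slope x x y y =
      (3 * x ^ 2 + 2 * algebraMap F K W.a₂ * x + algebraMap F K W.a₄) / (2 * y) := by
    rw [WeierstrassCurve.Affine.slope_of_Y_ne rfl hy', hn]
    change (3 * x ^ 2 + 2 * algebraMap F K W.a₂ * x + algebraMap F K W.a₄ -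
      (W.baseChange K).a₁ * y) / (y - -y) = _
    rw [e1]
    congr 1 <;> ring
  have hX : (WeierstrassCurve.toAffine (W.baseChange K)).addX x x
      ((WeierstrassCurve.toAffine (W.baseChange K)).slope x x y y) =
      ((3 * x ^ 2 + 2 * algebraMap F K W.a₂ * x + algebraMap F K W.a₄) / (2 * y)) ^ 2 -
        algebraMap F K W.a₂ - 2 * x := by
    rw [hS, WeierstrassCurve.Affine.addX]
    change _ ^ 2 + (W.baseChange K).a₁ * _ - algebraMap F K W.a₂ - x - x = _
    rw [e1]
    ring
  have hY : (WeierstrassCurve.toAffine (W.baseChange K)).addY x x y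
      ((WeierstrassCurve.toAffine (W.baseChange K)).slope x x y y) =
      (-(((3 * x ^ 2 + 2 * algebraMap F K W.a₂ * x + algebraMap F K W.a₄) / (2 * y)) *
        ((((3 * x ^ 2 + 2 * algebraMap F K W.a₂ * x + algebraMap F K W.a₄) / (2 * y)) ^ 2 -
        algebraMap F K W.a₂ - 2 * x) - x) + y)) := by
    rw [WeierstrassCurve.Affine.addY, WeierstrassCurve.Affine.negY,
      WeierstrassCurve.Affine.negAddY, hX, hS]
    change -(_ * (_ - x) + y) - (W.baseChange K).a₁ * _ - (W.baseChange K).a₃ = _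
    rw [e1, e3]
    ring
  obtain ⟨h', h''⟩ := some_eq_mkp (W := W) _ hX hY
  exact ⟨h', h0.trans h''⟩

/-- points of order two -/
theorem double_zero {x : K} (h : OnC W x (0 : K)) : mkp h + mkp h = 0 := by
  have h1 : -mkp h = mkp h := by
    rw [neg_mkp, mkp_inj]
    exact ⟨rfl, neg_zero⟩
  rw [add_eq_zero_iff_eq_neg, h1]

theorem OnC.map {x y : K} (h : OnC W x y) (φ : K →ₐ[F] L) : OnC W (φ x) (φ y) := by
  have h1 := congrArg φ h
  rw [OnC]
  simpa using h1

theorem map_mkp (φ : K →ₐ[F] L) {x y : K} (h : OnC W x y) :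
    Ept.map W φ (mkp h) = mkp (h.map φ) := rfl

/-- over an algebraically closed field there is a point with given first coordinate -/
theorem exists_y [IsAlgClosed K] (x : K) : ∃ y : K, OnC W x y := by
  obtain ⟨y, hy⟩ := IsAlgClosed.exists_pow_nat_eq (x ^ 3 + algebraMap F K W.a₂ * x ^ 2 +
    algebraMap F K W.a₄ * x + algebraMap F K W.a₆) (n := 2) two_pos
  exact ⟨y, hy⟩

/-- the cubic and its derivative have no common zero -/
theorem deriv_ne {x : K} (h : OnC W x (0 : K)) :
    3 * x ^ 2 + 2 * algebraMap F K W.a₂ * x + algebraMap F K W.a₄ ≠ 0 := by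
  have h1 := h.nonsingular
  rw [WeierstrassCurve.Affine.nonsingular_iff] at h1
  have e1 : (W.baseChange K).a₁ = 0 := by
    change algebraMap F K W.a₁ = 0
    rw [Ell.a₁ (W := W), map_zero]
  have e3 : (W.baseChange K).a₃ = 0 := by
    change algebraMap F K W.a₃ = 0
    rw [Ell.a₃ (W := W), map_zero]
  rcases h1.2 with h2 | h2
  · intro h0
    apply h2
    change (W.baseChange K).a₁ * 0 = 3 * x ^ 2 + 2 * algebraMap F K W.a₂ * x +
      algebraMap F K W.a₄
    rw [h0, mul_zero]
  · exfalso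
    apply h2
    change (0 : K) = -0 - (W.baseChange K).a₁ * x - (W.baseChange K).a₃
    rw [e1, e3]
    ring

end

end Pool.Agent.N203.ZE
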