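import Pool.Agent.N203.ZE.Stm

/-!
# Points of order `2^k` (by helper999)
-/

set_option autoImplicit false
set_option linter.unusedSectionVars false

namespace Pool.Agent.N203.ZE

open Polynomial in
/-- every point is twice a point -/
theorem exists_half {F : Type} [Field F] [CharZero F] {W : WeierstrassCurve F} [Ell W]
    {K : Type} [Field K] [Algebra F K] [IsAlgClosed K] (Q : Ept W K) : ∃ P : Ept W K, P + P = Q := by
  haveI : CharZero K := charZero_of_injective_algebraMap (algebraMap F K).injective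
  rcases Ept.cases Q with rfl | ⟨xq, yq, h, rfl⟩
  · exact ⟨0, add_zero 0⟩
  obtain ⟨a, ha⟩ : ∃ a : K, a = algebraMap F K W.a₂ := ⟨_, rfl⟩
  obtain ⟨b, hb⟩ : ∃ b : K, b = algebraMap F K W.a₄ := ⟨_, rfl⟩
  obtain ⟨c, hc⟩ : ∃ c : K, c = algebraMap F K W.a₆ := ⟨_, rfl⟩
  obtain ⟨x, hx⟩ : ∃ x : K, x ^ 4 - 4 * xq * x ^ 3 - (2 * b + 4 * a * xq) * x ^ 2 -
      (8 * c + 4 * b * xq) * x + (b ^ 2 - 4 * a * c - 4 * c * xq) = 0 := by
    obtain ⟨x, hx⟩ := IsAlgClosed.exists_root (X ^ 4 + (C (-(4 * xq)) * X ^ 3 +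
      C (-(2 * b + 4 * a * xq)) * X ^ 2 + C (-(8 * c + 4 * b * xq)) * X +
      C (b ^ 2 - 4 * a * c - 4 * c * xq)) : K[X]) (by
        have : (X ^ 4 + (C (-(4 * xq)) * X ^ 3 +
          C (-(2 * b + 4 * a * xq)) * X ^ 2 + C (-(8 * c + 4 * b * xq)) * X +
          C (b ^ 2 - 4 * a * c - 4 * c * xq)) : K[X]).degree = 4 := by compute_degree!
        rw [this]
        decide)
    refine ⟨x, ?_⟩
    rw [IsRoot.def] at hx
    simp only [eval_add, eval_mul, eval_pow, eval_X, eval_C] at hx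
    linear_combination hx
  have hx2 : (3 * x ^ 2 + 2 * a * x + b) ^ 2 =
      4 * (a + 2 * x + xq) * (x ^ 3 + a * x ^ 2 + b * x + c) := by
    linear_combination hx
  obtain ⟨y, hy⟩ := exists_y (W := W) x
  have hyc : y ^ 2 = x ^ 3 + a * x ^ 2 + b * x + c := by
    rw [ha, hb, hc]
    exact hy
  have hy0 : y ≠ 0 := by
    intro h0
    subst h0
    have h1 := deriv_ne hy
    rw [← ha, ← hb] at h1
    apply h1
    rw [← hyc] at hx2
    have h2 : (3 * x ^ 2 + 2 * a * x + b) ^ 2 = 0 := by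
      rw [hx2]
      ring
    exact pow_eq_zero_iff (two_ne_zero) |>.1 h2
  obtain ⟨h3, h4⟩ := double_mkp hy (mul_ne_zero two_ne_zero hy0)
  have hX : ((3 * x ^ 2 + 2 * algebraMap F K W.a₂ * x + algebraMap F K W.a₄) / (2 * y)) ^ 2 -
        algebraMap F K W.a₂ - 2 * x = xq := by
    rw [← ha, ← hb, div_pow, hx2, ← hyc]
    field_simp
    ring
  obtain ⟨h5, h6⟩ := mkp_congr h3 hX rfl
  rcases eq_or_neg h5 h with h7 | h7
  · exact ⟨mkp hy, by rw [h4, h6, h7]⟩
  · refine ⟨-mkp hy, ?_⟩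
    rw [← neg_add, h4, h6, h7, neg_neg]

open Polynomial in
/-- there is a point of order `2` -/
theorem exists_order_two (F : Type) [Field F] (W : WeierstrassCurve F) [Ell W]
    (K : Type) [Field K] [Algebra F K] [IsAlgClosed K] : ∃ P : Ept W K, addOrderOf P = 2 := by
  obtain ⟨x, hx⟩ : ∃ x : K, x ^ 3 + algebraMap F K W.a₂ * x ^ 2 + algebraMap F K W.a₄ * x +
      algebraMap F K W.a₆ = 0 := by
    obtain ⟨x, hx⟩ := IsAlgClosed.exists_root (X ^ 3 + (C (algebraMap F K W.a₂) * X ^ 2 +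
      C (algebraMap F K W.a₄) * X + C (algebraMap F K W.a₆)) : K[X]) (by
        have : (X ^ 3 + (C (algebraMap F K W.a₂) * X ^ 2 +
          C (algebraMap F K W.a₄) * X + C (algebraMap F K W.a₆)) : K[X]).degree = 3 := by
          compute_degree!
        rw [this]
        decide)
    refine ⟨x, ?_⟩
    rw [IsRoot.def] at hx
    simp only [eval_add, eval_mul, eval_pow, eval_X, eval_C] at hx
    linear_combination hx
  have h : OnC W x (0 : K) := by
    rw [OnC, hx]
    ring
  refine ⟨mkp h, addOrderOf_eq_prime ?_ (mkp_ne_zero h)⟩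
  rw [two_nsmul]
  exact double_zero h

/-- points of order `2^k` -/
theorem t_ORD : S_ORD := by
  intro F _ _ W _ K _ _ _ k
  cases k with
  | zero => exact ⟨0, by rw [addOrderOf_zero, pow_zero]⟩
  | succ k =>
    induction k with
    | zero =>
      obtain ⟨P, hP⟩ := exists_order_two F W K
      exact ⟨P, by rw [hP]; norm_num⟩
    | succ k ih =>
      obtain ⟨P, hP⟩ := ih
      obtain ⟨R, hR⟩ := exists_half P
      haveI : Fact (Nat.Prime 2) := ⟨Nat.prime_two⟩
      refine ⟨R, addOrderOf_eq_prime_pow ?_ ?_⟩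
      · intro h0
        have h1 : 2 ^ k • P = 0 := by
          rw [← hR, ← two_nsmul, ← mul_nsmul]
          rw [pow_succ, mul_comm] at h0
          exact h0
        have h2 := addOrderOf_dvd_of_nsmul_eq_zero h1
        rw [hP] at h2
        have h3 := Nat.le_of_dvd (pow_pos two_pos k) h2
        have h4 : 2 ^ k < 2 ^ (k + 1) := Nat.pow_lt_pow_right (by norm_num) (Nat.lt_succ_self k)
        omega
      · have h1 : 2 ^ (k + 1) • P = 0 := by
          rw [← hP]
          exact addOrderOf_nsmul_eq_zero P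
        rw [← hR, ← two_nsmul, ← mul_nsmul] at h1
        rw [pow_succ, mul_comm]
        exact h1

end Pool.Agent.N203.ZE
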