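import Pool.Agent.N203.ZE.Stm

/-!
# ZE/PLACE: existence of places (helper271 for helper203)
-/

set_option autoImplicit false

namespace Pool.Agent.N203.ZE

open MvPolynomial IsLocalRing
open Pool.Agent.N101.ZP (Sp)

/-- Two field extensions of a field have a common extension. -/
theorem exists_common (k A L : Type) [Field k] [Field A] [Field L] (a : k →+* A) (l : k →+* L) :
    ∃ (M : Type) (_ : Field M) (i : A →+* M) (j : L →+* M), ∀ x : k, i (a x) = j (l x) := by
  let : Algebra k A := a.toAlgebra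
  let : Algebra k L := l.toAlgebra
  obtain ⟨m, hm⟩ := Ideal.exists_maximal (TensorProduct k A L)
  let : Field (TensorProduct k A L ⧸ m) := Ideal.Quotient.field m
  refine ⟨TensorProduct k A L ⧸ m, inferInstance,
    (Ideal.Quotient.mk m).comp (Algebra.TensorProduct.includeLeftRingHom),
    (Ideal.Quotient.mk m).comp
      (Algebra.TensorProduct.includeRight (R := k) (A := A) (B := L)).toRingHom, ?_⟩
  intro x
  have h1 : (Algebra.TensorProduct.includeLeftRingHom (R := k) (A := A) (B := L)) (a x) =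
      (Algebra.TensorProduct.includeRight (R := k) (A := A) (B := L)) (l x) := by
    have e1 : a x = algebraMap k A x := rfl
    have e2 : l x = algebraMap k L x := rfl
    rw [e2, AlgHom.commutes, e1]
    rfl
  exact congrArg (Ideal.Quotient.mk m) h1

/-- The abstract place attached to a local ring with maps to two fields. -/
theorem exists_place (Ω L R : Type) [Field Ω] [Field L] [CommRing R] [IsLocalRing R]
    (f : R →+* Ω) (ψ : R →+* L) (hψ : IsLocalHom ψ) :
    ∃ (M : Type) (_ : Field M) (g : L →+* M) (O : ValuationSubring Ω) (π : O →+* M),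
      (∀ a : O, π a ≠ 0 → ((a : Ω))⁻¹ ∈ O) ∧
      ∀ r : R, ∃ h : f r ∈ O, π ⟨f r, h⟩ = g (ψ r) := by
  obtain ⟨V, h, hV⟩ := IsLocalRing.exists_factor_valuationRing f
  have := hV
  have := hψ
  have : IsLocalRing V.toSubring := inferInstanceAs (IsLocalRing V)
  obtain ⟨M, iM, i, j, hij⟩ := exists_common (ResidueField R) (ResidueField V.toSubring) L
    (ResidueField.map (f.codRestrict V.toSubring h)) (ResidueField.lift ψ)
  refine ⟨M, iM, j, V, i.comp (residue V.toSubring), ?_, ?_⟩
  · intro a ha
    have h1 : residue V.toSubring a ≠ 0 := by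
      intro h0
      apply ha
      rw [RingHom.comp_apply]
      erw [h0]
      exact map_zero i
    rw [residue_ne_zero_iff_isUnit] at h1
    obtain ⟨u, hu⟩ := h1
    have h2 : ((a : Ω)) * (((u⁻¹ : (V.toSubring)ˣ) : V.toSubring) : Ω) = 1 := by
      have h3 : ((u : V.toSubring) : Ω) * (((u⁻¹ : (V.toSubring)ˣ) : V.toSubring) : Ω) = 1 := by
        rw [← Subring.coe_mul, Units.mul_inv]
        rfl
      rw [hu] at h3
      exact h3
    rw [inv_eq_of_mul_eq_one_right h2]
    exact ((u⁻¹ : (V.toSubring)ˣ) : V.toSubring).2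
  · intro r
    refine ⟨h r, ?_⟩
    have h1 := hij (residue R r)
    rw [ResidueField.map_residue, ResidueField.lift_residue_apply] at h1
    exact h1

theorem t_PLACE : S_PLACE := by
  intro F Ω L ι _ _ _ _ _ p p' hsp
  set q : Ideal (MvPolynomial ι F) := RingHom.ker (aeval p' : MvPolynomial ι F →ₐ[F] L) with hq
  have hqp : q.IsPrime := RingHom.ker_isPrime _
  have hmem : ∀ x : MvPolynomial ι F, x ∈ q ↔ aeval p' x = 0 := fun x => by
    rw [hq]; exact RingHom.mem_ker
  have hu1 : ∀ y : q.primeCompl, IsUnit ((aeval p : MvPolynomial ι F →ₐ[F] Ω).toRingHom y) := by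
    intro y
    refine isUnit_iff_ne_zero.2 fun h0 => y.2 ?_
    exact (hmem _).2 (hsp _ h0)
  have hu2 : ∀ y : q.primeCompl, IsUnit ((aeval p' : MvPolynomial ι F →ₐ[F] L).toRingHom y) := by
    intro y
    refine isUnit_iff_ne_zero.2 fun h0 => y.2 ?_
    exact (hmem _).2 h0
  let R := Localization.AtPrime q
  let f : R →+* Ω := IsLocalization.lift (M := q.primeCompl) hu1
  let ψ : R →+* L := IsLocalization.lift (M := q.primeCompl) hu2
  have hf : ∀ x : MvPolynomial ι F, f (algebraMap _ R x) = aeval p x := fun x =>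
    IsLocalization.lift_eq (M := q.primeCompl) hu1 x
  have hg : ∀ x : MvPolynomial ι F, ψ (algebraMap _ R x) = aeval p' x := fun x =>
    IsLocalization.lift_eq (M := q.primeCompl) hu2 x
  have hψ : IsLocalHom ψ := by
    refine ⟨fun r hr => ?_⟩
    obtain ⟨x, s, rfl⟩ := IsLocalization.exists_mk'_eq q.primeCompl r
    rw [IsLocalization.AtPrime.isUnit_mk'_iff (S := R) (I := q)]
    intro hx
    have h1 : ψ (IsLocalization.mk' R x s) = 0 := by
      rw [IsLocalization.lift_mk'_spec (M := q.primeCompl)]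
      rw [mul_zero]
      exact (hmem _).1 hx
    rw [h1] at hr
    exact not_isUnit_zero hr
  obtain ⟨M, iM, g, O, π, hloc, hπ⟩ := exists_place Ω L R f ψ hψ
  let algM : Algebra F M := (g.comp (algebraMap F L)).toAlgebra
  have hC : ∀ c : F, f (algebraMap _ R (C c)) = algebraMap F Ω c := fun c => by
    rw [hf]; simp
  have hC' : ∀ c : F, ψ (algebraMap _ R (C c)) = algebraMap F L c := fun c => by
    rw [hg]; simp
  have halg : ∀ c : F, algebraMap F Ω c ∈ O := fun c => by
    obtain ⟨h, -⟩ := hπ (algebraMap (MvPolynomial ι F) R (C c))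
    rwa [hC] at h
  have key : ∀ (r : R) (w : Ω) (hw : f r = w), ∃ h : w ∈ O, π ⟨w, h⟩ = g (ψ r) := by
    rintro r _ rfl
    exact hπ r
  refine ⟨M, iM, algM, { g with commutes' := fun c => rfl }, ⟨O, π, hloc, halg, ?_⟩, ?_⟩
  · intro c
    obtain ⟨h, e⟩ := key _ _ (hC c)
    rw [e, hC']
    rfl
  · intro i
    obtain ⟨h, e⟩ := key (algebraMap _ R (X i)) (p i) (by rw [hf]; simp)
    refine ⟨h, ?_⟩
    rw [e, hg, aeval_X]
    rfl

end Pool.Agent.N203.ZE
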