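import Pool.Agent.N203.ZE.Stm

/-!
# The reduction homomorphism of an elliptic curve with constant coefficients (helper456)
-/

set_option autoImplicit false
set_option linter.unusedSectionVars false

namespace Pool.Agent.N203.ZE

namespace RED_

section Rel

variable {F Ω M : Type} [Field F] [Field Ω] [Algebra F Ω] [Field M] [Algebra F M]
  (v : Place F Ω M)

/-- `x` is in the valuation ring and reduces to `x'` -/
def Rel (x : Ω) (x' : M) : Prop := ∃ h : x ∈ v.O, v.π ⟨x, h⟩ = x'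

variable {v} {x y : Ω} {x' y' x'' : M}

lemma rel_unique (h : Rel v x x') (h' : Rel v x x'') : x' = x'' := by
  obtain ⟨_, rfl⟩ := h
  obtain ⟨_, rfl⟩ := h'
  rfl

lemma rel_add (h : Rel v x x') (h' : Rel v y y') : Rel v (x + y) (x' + y') := by
  obtain ⟨hx, rfl⟩ := h
  obtain ⟨hy, rfl⟩ := h'
  exact ⟨v.O.add_mem _ _ hx hy, by rw [← map_add]; rfl⟩

lemma rel_mul (h : Rel v x x') (h' : Rel v y y') : Rel v (x * y) (x' * y') := by
  obtain ⟨hx, rfl⟩ := h
  obtain ⟨hy, rfl⟩ := h'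
  exact ⟨v.O.mul_mem _ _ hx hy, by rw [← map_mul]; rfl⟩

lemma rel_neg (h : Rel v x x') : Rel v (-x) (-x') := by
  obtain ⟨hx, rfl⟩ := h
  exact ⟨v.O.neg_mem _ hx, by rw [← map_neg]; rfl⟩

lemma rel_sub (h : Rel v x x') (h' : Rel v y y') : Rel v (x - y) (x' - y') := by
  rw [sub_eq_add_neg, sub_eq_add_neg]
  exact rel_add h (rel_neg h')

lemma rel_zero : Rel v 0 0 := ⟨v.O.zero_mem, map_zero v.π⟩

lemma rel_one : Rel v 1 1 := ⟨v.O.one_mem, map_one v.π⟩

lemma rel_pow (h : Rel v x x') (n : ℕ) : Rel v (x ^ n) (x' ^ n) := by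
  induction n with
  | zero => simpa using rel_one
  | succ n ih => rw [pow_succ, pow_succ]; exact rel_mul ih h

lemma rel_alg (c : F) : Rel v (algebraMap F Ω c) (algebraMap F M c) := ⟨v.alg c, v.map_alg c⟩

lemma rel_inv (h : Rel v x x') (h0 : x' ≠ 0) : Rel v x⁻¹ x'⁻¹ := by
  obtain ⟨hx, rfl⟩ := h
  have h1 : x⁻¹ ∈ v.O := v.loc ⟨x, hx⟩ h0
  refine ⟨h1, ?_⟩
  have hx0 : x ≠ 0 := by
    rintro rfl
    apply h0
    exact map_zero v.π
  have h2 : v.π ⟨x, hx⟩ * v.π ⟨x⁻¹, h1⟩ = 1 := by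
    rw [← map_mul]
    have : (⟨x, hx⟩ * ⟨x⁻¹, h1⟩ : v.O) = 1 := by
      apply Subtype.ext
      exact mul_inv_cancel₀ hx0
    rw [this, map_one]
  exact eq_inv_of_mul_eq_one_right h2

lemma rel_div (h : Rel v x x') (h' : Rel v y y') (h0 : y' ≠ 0) : Rel v (x / y) (x' / y') := by
  rw [div_eq_mul_inv, div_eq_mul_inv]
  exact rel_mul h (rel_inv h' h0)

lemma rel_nat (n : ℕ) : Rel v (n : Ω) (n : M) := by
  have := rel_alg (v := v) (n : F)
  simpa using this

/-- elements outside of the ring have an inverse which reduces to zero -/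
lemma rel_inv_zero (h : x ∉ v.O) : Rel v x⁻¹ 0 := by
  have h1 : x⁻¹ ∈ v.O := (v.O.mem_or_inv_mem x).resolve_left h
  by_contra hcon
  have h2 : v.π ⟨x⁻¹, h1⟩ ≠ 0 := fun h0 => hcon ⟨h1, h0⟩
  have h3 := v.loc ⟨x⁻¹, h1⟩ h2
  simp only [inv_inv] at h3
  exact h h3

variable {W : WeierstrassCurve F}

lemma onC_rel (h : OnC W x y) (hx : Rel v x x') (hy : Rel v y y') : OnC W x' y' := by
  have h1 : Rel v (y ^ 2) (y' ^ 2) := rel_pow hy 2
  have h2 : Rel v (x ^ 3 + algebraMap F Ω W.a₂ * x ^ 2 + algebraMap F Ω W.a₄ * x +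
      algebraMap F Ω W.a₆) (x' ^ 3 + algebraMap F M W.a₂ * x' ^ 2 + algebraMap F M W.a₄ * x' +
      algebraMap F M W.a₆) :=
    rel_add (rel_add (rel_add (rel_pow hx 3) (rel_mul (rel_alg _) (rel_pow hx 2)))
      (rel_mul (rel_alg _) hx)) (rel_alg _)
  rw [OnC] at h ⊢
  rw [← h] at h2
  exact rel_unique h1 h2

lemma y_mem (h : OnC W x y) (hx : x ∈ v.O) : y ∈ v.O := by
  by_contra hy
  have h1 := rel_inv_zero hy
  have hy0 : y ≠ 0 := by
    rintro rfl
    exact hy v.O.zero_mem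
  obtain ⟨h2, -⟩ := h1
  have hx' : Rel v x (v.π ⟨x, hx⟩) := ⟨hx, rfl⟩
  have h3 : Rel v (x ^ 3 + algebraMap F Ω W.a₂ * x ^ 2 + algebraMap F Ω W.a₄ * x +
      algebraMap F Ω W.a₆) _ :=
    rel_add (rel_add (rel_add (rel_pow hx' 3) (rel_mul (rel_alg _) (rel_pow hx' 2)))
      (rel_mul (rel_alg _) hx')) (rel_alg _)
  obtain ⟨h4, -⟩ := h3
  rw [OnC] at h
  rw [← h] at h4
  apply hy
  have : y = y ^ 2 * y⁻¹ := by field_simp
  rw [this]
  exact v.O.mul_mem _ _ h4 h2

end Rel

section Pt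

variable {F Ω M : Type} [Field F] [Field Ω] [Algebra F Ω] [Field M] [Algebra F M]
  {W : WeierstrassCurve F} [Ell W] (v : Place F Ω M)

/-- the point `P` reduces to the point `P'` -/
def R (P : Ept W Ω) (P' : Ept W M) : Prop :=
  (∃ (x y : Ω) (x' y' : M) (h : OnC W x y) (h' : OnC W x' y'), Rel v x x' ∧ Rel v y y' ∧
    P = mkp h ∧ P' = mkp h') ∨
  (P' = 0 ∧ (P = 0 ∨ ∃ (x y : Ω) (h : OnC W x y), x ∉ v.O ∧ P = mkp h))

lemma R_exists (P : Ept W Ω) : ∃ P' : Ept W M, R v P P' := by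
  rcases Ept.cases P with h | ⟨x, y, h, rfl⟩
  · exact ⟨0, Or.inr ⟨rfl, Or.inl h⟩⟩
  · by_cases hx : x ∈ v.O
    · have hy := y_mem h hx
      have rx : Rel v x (v.π ⟨x, hx⟩) := ⟨hx, rfl⟩
      have ry : Rel v y (v.π ⟨y, hy⟩) := ⟨hy, rfl⟩
      exact ⟨mkp (onC_rel h rx ry), Or.inl ⟨x, y, _, _, h, onC_rel h rx ry, rx, ry, rfl, rfl⟩⟩
    · exact ⟨0, Or.inr ⟨rfl, Or.inr ⟨x, y, h, hx, rfl⟩⟩⟩

variable {v}

lemma R_unique {P : Ept W Ω} {P' P'' : Ept W M} (h1 : R v P P') (h2 : R v P P'') : P' = P'' := by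
  rcases h1 with ⟨x, y, x', y', h, h', rx, ry, e, e'⟩ | ⟨e', e⟩
  · rcases h2 with ⟨z, w, z', w', g, g', rz, rw', k, k'⟩ | ⟨k', k⟩
    · rw [e, mkp_inj] at k
      obtain ⟨rfl, rfl⟩ := k
      rw [e', k', mkp_inj]
      exact ⟨rel_unique rx rz, rel_unique ry rw'⟩
    · rcases k with k | ⟨z, w, g, hz, k⟩
      · exact absurd (e.symm.trans k) (mkp_ne_zero h)
      · rw [e, mkp_inj] at k
        obtain ⟨rfl, rfl⟩ := k
        exact absurd rx.1 hz
  · rcases h2 with ⟨z, w, z', w', g, g', rz, rw', k, k'⟩ | ⟨k', k⟩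
    · rcases e with e | ⟨x, y, h, hx, e⟩
      · exact absurd (k.symm.trans e) (mkp_ne_zero g)
      · rw [e, mkp_inj] at k
        obtain ⟨rfl, rfl⟩ := k
        exact absurd rz.1 hx
    · rw [e', k']

variable (v)

/-- the reduction of points -/
noncomputable def red (P : Ept W Ω) : Ept W M := (R_exists v P).choose

lemma R_red (P : Ept W Ω) : R v P (red v P) := (R_exists v P).choose_spec

variable {v}

lemma red_eq {P : Ept W Ω} {P' : Ept W M} (h : R v P P') : red v P = P' :=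
  R_unique (R_red v P) h

lemma red_zero : red v (0 : Ept W Ω) = 0 := red_eq (Or.inr ⟨rfl, Or.inl rfl⟩)

/-- points which do not reduce to zero -/
lemma red_ne {P : Ept W Ω} (h : red v P ≠ 0) : ∃ (x y : Ω) (x' y' : M) (h : OnC W x y)
    (h' : OnC W x' y'), Rel v x x' ∧ Rel v y y' ∧ P = mkp h ∧ red v P = mkp h' := by
  rcases R_red v P with h1 | h1
  · exact h1
  · exact absurd h1.1 h

lemma red_neg (P : Ept W Ω) : red v (-P) = -red v P := by
  apply red_eq
  rcases R_red v P with ⟨x, y, x', y', h, h', rx, ry, e, e'⟩ | ⟨e', e⟩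
  · refine Or.inl ⟨x, -y, x', -y', h.neg, h'.neg, rx, rel_neg ry, ?_, ?_⟩
    · rw [e, neg_mkp]
    · rw [e', neg_mkp]
  · refine Or.inr ⟨by rw [e', neg_zero], ?_⟩
    rcases e with e | ⟨x, y, h, hx, e⟩
    · exact Or.inl (by rw [e, neg_zero])
    · exact Or.inr ⟨x, -y, h.neg, hx, by rw [e, neg_mkp]⟩

variable (Ω M) in
/-- constant points -/
noncomputable abbrev cst (K : Type) [Field K] [Algebra F K] (T : Ept W F) : Ept W K :=
  Ept.map W (Algebra.ofId F K) T

lemma cst_inj {K : Type} [Field K] [Algebra F K] {T T' : Ept W F} (h : cst K T = cst K T') :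
    T = T' := Ept.map_injective _ h

lemma red_cst (T : Ept W F) : red v (cst Ω T) = cst M T := by
  rcases Ept.cases T with rfl | ⟨x, y, h, rfl⟩
  · rw [cst, cst, map_zero, map_zero, red_zero]
  · apply red_eq
    exact Or.inl ⟨_, _, _, _, h.map _, h.map _, rel_alg x, rel_alg y, map_mkp _ h, map_mkp _ h⟩

/-- CLAIM A -/
lemma claimA {P Q : Ept W Ω} (hP : red v P ≠ 0) (hQ : red v Q ≠ 0) (h1 : red v P ≠ red v Q)
    (h2 : red v P ≠ -red v Q) : red v (P + Q) = red v P + red v Q := by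
  obtain ⟨x₁, y₁, x₁', y₁', k₁, k₁', rx₁, ry₁, rfl, e₁⟩ := red_ne hP
  obtain ⟨x₂, y₂, x₂', y₂', k₂, k₂', rx₂, ry₂, rfl, e₂⟩ := red_ne hQ
  have hx' : x₁' ≠ x₂' := by
    rintro rfl
    rw [e₁, e₂] at h1 h2
    rcases eq_or_neg k₁' k₂' with h | h
    · exact h1 h
    · exact h2 h
  have hx : x₁ ≠ x₂ := by
    rintro rfl
    exact hx' (rel_unique rx₁ rx₂)
  obtain ⟨k₃, e₃⟩ := add_mkp k₁ k₂ hx
  obtain ⟨k₃', e₃'⟩ := add_mkp k₁' k₂' hx'
  rw [e₁, e₂, e₃']
  apply red_eq
  have hl : Rel v ((y₁ - y₂) / (x₁ - x₂)) ((y₁' - y₂') / (x₁' - x₂')) :=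
    rel_div (rel_sub ry₁ ry₂) (rel_sub rx₁ rx₂) (sub_ne_zero.mpr hx')
  have hX := rel_sub (rel_sub (rel_sub (rel_pow hl 2) (rel_alg W.a₂)) rx₁) rx₂
  exact Or.inl ⟨_, _, _, _, k₃, k₃', hX,
    rel_neg (rel_add (rel_mul hl (rel_sub hX rx₁)) ry₁), e₃, rfl⟩

end Pt

section Gen

variable {F : Type} [Field F] [IsAlgClosed F] [CharZero F] {W : WeierstrassCurve F} [Ell W]

instance : Infinite (Ept W F) := by
  have hf : ∀ x : F, ∃ y : F, OnC W x y := fun x => exists_y x
  choose g hg using hf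
  refine Infinite.of_injective (fun x => mkp (hg x)) ?_
  intro x x' h
  exact (mkp_inj.mp h).1

/-- finitely many points of order two -/
lemma two_fin : {T : Ept W F | T + T = 0}.Finite := by
  classical
  set p : Polynomial F := Polynomial.X ^ 3 + Polynomial.C W.a₂ * Polynomial.X ^ 2 +
    Polynomial.C W.a₄ * Polynomial.X + Polynomial.C W.a₆ with hp
  have hp0 : p ≠ 0 := by
    intro h0
    have : p.coeff 3 = 0 := by rw [h0]; simp
    have h3 : p.coeff 3 = 1 := by
      rw [hp]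
      simp
    rw [h3] at this
    exact one_ne_zero this
  have hfin : {x : F | p.IsRoot x}.Finite := Polynomial.finite_setOfPred_isRoot hp0
  have hsub : {T : Ept W F | T + T = 0} ⊆ {0} ∪
      (⋃ x ∈ {x : F | p.IsRoot x}, {T : Ept W F | ∃ h : OnC W x 0, T = mkp h}) := by
    intro T hT
    rw [Set.mem_ofPred_eq] at hT
    rcases Ept.cases T with h | ⟨x, y, h, rfl⟩
    · exact Or.inl h
    · right
      have h1 : mkp h = mkp h.neg := by
        rw [← neg_mkp h]
        exact eq_neg_of_add_eq_zero_left hT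
      have h2 := (mkp_inj.mp h1).2
      have h3 : y = 0 := by
        have : 2 * y = 0 := by linear_combination h2
        rcases mul_eq_zero.mp this with h | h
        · exact absurd h two_ne_zero
        · exact h
      subst h3
      refine Set.mem_iUnion₂.mpr ⟨x, ?_, h, rfl⟩
      rw [Set.mem_ofPred_eq, Polynomial.IsRoot, hp]
      have h4 := h
      rw [OnC] at h4
      simp only [Polynomial.eval_add, Polynomial.eval_pow, Polynomial.eval_X,
        Polynomial.eval_mul, Polynomial.eval_C]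
      simp only [Algebra.algebraMap_self, RingHom.id_apply] at h4
      rw [← h4]
      ring
  refine Set.Finite.subset ((Set.finite_singleton 0).union ?_) hsub
  refine Set.Finite.biUnion hfin fun x _ => ?_
  refine Set.Subsingleton.finite ?_
  rintro T ⟨h, rfl⟩ T' ⟨h', rfl⟩
  rfl

variable {M : Type} [Field M] [Algebra F M]

lemma fin_one (D : Ept W M) : {T : Ept W F | cst M T = D}.Finite := by
  refine Set.Subsingleton.finite ?_
  rintro T h T' h'
  exact cst_inj (h.trans h'.symm)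

lemma fin_two (D : Ept W M) : {T : Ept W F | cst M T + cst M T = D}.Finite := by
  by_cases h : ∃ T₀ : Ept W F, cst M T₀ + cst M T₀ = D
  · obtain ⟨T₀, h0⟩ := h
    refine (two_fin.image (fun T => T + T₀)).subset ?_
    intro T hT
    rw [Set.mem_ofPred_eq] at hT
    refine ⟨T - T₀, ?_, by simp⟩
    rw [Set.mem_ofPred_eq]
    apply cst_inj (K := M)
    have e0 : cst M (0 : Ept W F) = 0 := map_zero _
    rw [e0, cst, map_add, map_sub]
    have h1 : cst M T + cst M T - (cst M T₀ + cst M T₀) = 0 := by rw [hT, h0, sub_self]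
    rw [← h1]
    abel
  · have : {T : Ept W F | cst M T + cst M T = D} = ∅ := by
      ext T
      simp only [Set.mem_ofPred_eq, Set.mem_empty_iff_false, iff_false]
      exact fun hT => h ⟨T, hT⟩
    rw [this]
    exact Set.finite_empty

/-- a constant point in general position -/
lemma exists_gen (D₁ D₂ D₃ D₄ D₅ : Ept W M) : ∃ T : Ept W F, cst M T ≠ D₁ ∧ cst M T ≠ D₂ ∧
    cst M T ≠ D₃ ∧ cst M T ≠ D₄ ∧ cst M T + cst M T ≠ D₅ := by
  have h := ((((fin_one (W := W) D₁).union (fin_one D₂)).union (fin_one D₃)).union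
    (fin_one D₄)).union (fin_two D₅)
  obtain ⟨T, hT⟩ := h.exists_notMem
  simp only [Set.mem_union, Set.mem_ofPred_eq, not_or] at hT
  exact ⟨T, hT.1.1.1.1, hT.1.1.1.2, hT.1.1.2, hT.1.2, hT.2⟩

end Gen

section Main

variable {F Ω M : Type} [Field F] [IsAlgClosed F] [CharZero F] [Field Ω] [Algebra F Ω] [Field M]
  [Algebra F M] {W : WeierstrassCurve F} [Ell W] {v : Place F Ω M}

/-- CLAIM B -/
lemma claimB {P : Ept W Ω} (T : Ept W F) (hP : red v P ≠ 0) (hT : red v P + cst M T ≠ 0) :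
    red v (P + cst Ω T) = red v P + cst M T := by
  obtain ⟨T₁, n0, n1, n2, n3, n4⟩ := exists_gen (W := W) 0 (cst M T) (red v P) (-red v P)
    (cst M T - red v P)
  have a1 : red v (P + cst Ω T₁) = red v P + cst M T₁ := by
    rw [← red_cst (v := v)]
    refine claimA hP ?_ ?_ ?_
    · rw [red_cst]; exact n0
    · rw [red_cst]; exact fun h => n2 h.symm
    · rw [red_cst]; exact fun h => n3 (by rw [h, neg_neg])
  have e2 : cst M (T - T₁) = cst M T - cst M T₁ := map_sub _ _ _
  have e3 : cst Ω T = cst Ω T₁ + cst Ω (T - T₁) := by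
    rw [cst, cst, cst, ← map_add]
    congr 1
    abel
  have a2 : red v (P + cst Ω T₁ + cst Ω (T - T₁)) =
      red v (P + cst Ω T₁) + red v (cst Ω (T - T₁)) := by
    refine claimA ?_ ?_ ?_ ?_
    · rw [a1]
      intro h
      exact n3 (eq_neg_of_add_eq_zero_right h)
    · rw [red_cst, e2]
      intro h
      exact n1 (sub_eq_zero.mp h).symm
    · rw [a1, red_cst, e2]
      intro h
      apply n4
      rw [eq_sub_iff_add_eq]
      have := congrArg (fun z => z + cst M T₁) h
      simp only [sub_add_cancel] at this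
      rw [← this]
      abel
    · rw [a1, red_cst, e2]
      intro h
      apply hT
      have := congrArg (fun z => z + (cst M T - cst M T₁)) h
      simp only [neg_add_cancel] at this
      rw [← this]
      abel
  rw [e3, ← add_assoc, a2, a1, red_cst, e2]
  abel

/-- CLAIM C -/
lemma claimC {P : Ept W Ω} (T : Ept W F) (hP : red v P = 0) (hT : T ≠ 0) :
    red v (P + cst Ω T) = cst M T := by
  have hTM : cst M T ≠ 0 := by
    intro h
    apply hT
    apply cst_inj (K := M)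
    rw [h]
    exact (map_zero _).symm
  rcases R_red v P with ⟨x, y, x', y', h, h', rx, ry, e, e'⟩ | ⟨-, e⟩
  · rw [e'] at hP
    exact absurd hP (mkp_ne_zero h')
  rcases e with rfl | ⟨x, y, h, hx, rfl⟩
  · rw [zero_add, red_cst]
  -- the sum is integral
  have hint : red v (mkp h + cst Ω T) ≠ 0 := by
    rcases Ept.cases T with h0 | ⟨a, b, k, rfl⟩
    · exact absurd h0 hT
    have hk : OnC W (algebraMap F Ω a) (algebraMap F Ω b) := k.map (Algebra.ofId F Ω)
    have ek : cst Ω (mkp k) = mkp hk := map_mkp _ k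
    rw [ek]
    have hne : x ≠ algebraMap F Ω a := by
      rintro rfl
      exact hx (v.alg a)
    obtain ⟨X, Y, X', Y', g, g', e1, e2, e3, e4⟩ := sum_prod h hk hne
    rw [e1]
    have hu := rel_inv_zero hx
    have hx0 : x ≠ 0 := by
      rintro rfl
      exact hx v.O.zero_mem
    have ra : Rel v (algebraMap F Ω a) (algebraMap F M a) := rel_alg a
    have r2 : Rel v ((2 : ℕ) : Ω) ((2 : ℕ) : M) := rel_nat 2
    have r4 : Rel v ((4 : ℕ) : Ω) ((4 : ℕ) : M) := rel_nat 4
    have rd : Rel v ((1 - x⁻¹ * algebraMap F Ω a) ^ 2) ((1 - 0 * algebraMap F M a) ^ 2) :=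
      rel_pow (rel_sub rel_one (rel_mul hu ra)) 2
    have rdi := rel_inv rd (by simp)
    have hd0 : (1 - x⁻¹ * algebraMap F Ω a) ^ 2 ≠ 0 := by
      intro h0
      rw [h0] at rd
      have := rel_unique rd rel_zero
      simp at this
    obtain ⟨hs, -⟩ := rel_mul (rel_mul r2 (rel_add (rel_add (rel_mul (rel_add ra
      (rel_mul (rel_alg W.a₄) hu)) (rel_add rel_one (rel_mul hu ra)))
      (rel_mul (rel_mul r2 (rel_alg W.a₂)) (rel_mul hu ra)))
      (rel_mul (rel_mul r2 (rel_alg W.a₆)) (rel_pow hu 2)))) rdi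
    obtain ⟨hp, -⟩ := rel_mul (rel_sub (rel_pow (rel_sub ra (rel_mul (rel_alg W.a₄) hu)) 2)
      (rel_mul (rel_mul r4 (rel_mul (rel_alg W.a₆) hu)) (rel_add (rel_add rel_one
      (rel_mul hu ra)) (rel_mul (rel_alg W.a₂) hu)))) rdi
    have es : X + X' = ((2 : ℕ) : Ω) * ((algebraMap F Ω a + algebraMap F Ω W.a₄ * x⁻¹) *
        (1 + x⁻¹ * algebraMap F Ω a) +
        ((2 : ℕ) : Ω) * algebraMap F Ω W.a₂ * (x⁻¹ * algebraMap F Ω a) +
        ((2 : ℕ) : Ω) * algebraMap F Ω W.a₆ * x⁻¹ ^ 2) *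
        ((1 - x⁻¹ * algebraMap F Ω a) ^ 2)⁻¹ := by
      rw [eq_mul_inv_iff_mul_eq₀ hd0]
      refine mul_right_cancel₀ (pow_ne_zero 2 hx0) ?_
      have : (X + X') * (1 - x⁻¹ * algebraMap F Ω a) ^ 2 * x ^ 2 =
          (X + X') * (x - algebraMap F Ω a) ^ 2 := by
        field_simp
      rw [this, e3]
      push_cast
      field_simp
    have ep : X * X' = ((algebraMap F Ω a - algebraMap F Ω W.a₄ * x⁻¹) ^ 2 -
        ((4 : ℕ) : Ω) * (algebraMap F Ω W.a₆ * x⁻¹) * (1 + x⁻¹ * algebraMap F Ω a +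
        algebraMap F Ω W.a₂ * x⁻¹)) * ((1 - x⁻¹ * algebraMap F Ω a) ^ 2)⁻¹ := by
      rw [eq_mul_inv_iff_mul_eq₀ hd0]
      refine mul_right_cancel₀ (pow_ne_zero 2 hx0) ?_
      have : X * X' * (1 - x⁻¹ * algebraMap F Ω a) ^ 2 * x ^ 2 =
          X * X' * (x - algebraMap F Ω a) ^ 2 := by
        field_simp
      rw [this, e4]
      push_cast
      field_simp
    rw [← es] at hs
    rw [← ep] at hp
    have hX : X ∈ v.O := by
      by_contra hX
      have hXi := (v.O.mem_or_inv_mem X).resolve_left hX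
      have hX0 : X ≠ 0 := by
        rintro rfl
        exact hX v.O.zero_mem
      apply hX
      have : X = (X + X') - X * X' * X⁻¹ := by
        field_simp
        ring
      rw [this]
      exact v.O.sub_mem hs (v.O.mul_mem _ _ hp hXi)
    have hY := y_mem g hX
    have rX : Rel v X (v.π ⟨X, hX⟩) := ⟨hX, rfl⟩
    have rY : Rel v Y (v.π ⟨Y, hY⟩) := ⟨hY, rfl⟩
    rw [red_eq (Or.inl ⟨X, Y, _, _, g, onC_rel g rX rY, rX, rY, rfl, rfl⟩)]
    exact mkp_ne_zero _
  by_contra hcon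
  have e2 : cst M (-T) = -cst M T := map_neg _ _
  have e3 : cst Ω (-T) = -cst Ω T := map_neg _ _
  have hB := claimB (v := v) (P := mkp h + cst Ω T) (-T) hint (by
    rw [e2]
    intro h0
    apply hcon
    rw [← sub_eq_add_neg, sub_eq_zero] at h0
    exact h0)
  rw [e3, add_neg_cancel_right, hP, e2] at hB
  apply hcon
  rw [eq_comm, ← sub_eq_add_neg, sub_eq_zero] at hB
  exact hB

lemma cst_neg (K : Type) [Field K] [Algebra F K] (T : Ept W F) : cst K (-T) = -cst K T :=
  map_neg _ _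

/-- D1 -/
lemma add1 {P Q : Ept W Ω} (hP : red v P ≠ 0) (hQ : red v Q ≠ 0) (h : red v P + red v Q ≠ 0) :
    red v (P + Q) = red v P + red v Q := by
  obtain ⟨T, n1, n2, -, -, n5⟩ := exists_gen (W := W) (-red v P) (red v Q) 0 0
    (red v Q - red v P)
  have b1 : red v (P + cst Ω T) = red v P + cst M T :=
    claimB T hP (fun h0 => n1 (eq_neg_of_add_eq_zero_right h0))
  have b2 : red v (Q + cst Ω (-T)) = red v Q + cst M (-T) := by
    refine claimB (-T) hQ ?_
    rw [cst_neg]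
    intro h0
    exact n2 (add_neg_eq_zero.mp h0).symm
  have e : P + Q = (P + cst Ω T) + (Q + cst Ω (-T)) := by
    rw [cst_neg]
    abel
  have key : red v ((P + cst Ω T) + (Q + cst Ω (-T))) =
      red v (P + cst Ω T) + red v (Q + cst Ω (-T)) := by
    refine claimA ?_ ?_ ?_ ?_
    · rw [b1]
      exact fun h0 => n1 (eq_neg_of_add_eq_zero_right h0)
    · rw [b2, cst_neg]
      exact fun h0 => n2 (add_neg_eq_zero.mp h0).symm
    · rw [b1, b2, cst_neg]
      intro h0
      apply n5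
      rw [eq_sub_iff_add_eq]
      have := congrArg (fun z => z + cst M T) h0
      simp only [neg_add_cancel_right] at this
      rw [← this]
      abel
    · rw [b1, b2, cst_neg]
      intro h0
      apply h
      have := congrArg (fun z => z + (red v Q + -cst M T)) h0
      simp only [neg_add_cancel] at this
      rw [← this]
      abel
  rw [e, key, b1, b2, cst_neg]
  abel

/-- D2 -/
lemma add2 {P Q : Ept W Ω} (hP : red v P ≠ 0) (hQ : red v Q = 0) : red v (P + Q) = red v P := by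
  obtain ⟨T, n1, n2, -, -, -⟩ := exists_gen (W := W) (0 : Ept W M) (red v P) 0 0 0
  have hT : T ≠ 0 := by
    rintro rfl
    exact n1 (map_zero _)
  have b1 : red v (Q + cst Ω T) = cst M T := claimC T hQ hT
  have b2 : red v (P + cst Ω (-T)) = red v P + cst M (-T) := by
    refine claimB (-T) hP ?_
    rw [cst_neg]
    intro h0
    exact n2 (add_neg_eq_zero.mp h0).symm
  have e : P + Q = (P + cst Ω (-T)) + (Q + cst Ω T) := by
    rw [cst_neg]
    abel
  have key : red v ((P + cst Ω (-T)) + (Q + cst Ω T)) =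
      red v (P + cst Ω (-T)) + red v (Q + cst Ω T) := by
    refine add1 ?_ ?_ ?_
    · rw [b2, cst_neg]
      exact fun h0 => n2 (add_neg_eq_zero.mp h0).symm
    · rw [b1]; exact n1
    · rw [b1, b2, cst_neg]
      have : red v P + -cst M T + cst M T = red v P := by abel
      rw [this]
      exact hP
  rw [e, key, b1, b2, cst_neg]
  abel

lemma red_add (P Q : Ept W Ω) : red v (P + Q) = red v P + red v Q := by
  by_cases hP : red v P = 0
  · by_cases hQ : red v Q = 0
    · rw [hP, hQ, add_zero]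
      by_contra hS
      have hQ' : red v (-Q) = 0 := by rw [red_neg, hQ, neg_zero]
      have h := add2 hS hQ'
      rw [add_neg_cancel_right, hP] at h
      exact hS h.symm
    · rw [hP, zero_add, add_comm]
      exact add2 hQ hP
  · by_cases hQ : red v Q = 0
    · rw [hQ, add_zero]
      exact add2 hP hQ
    · by_cases h : red v P + red v Q = 0
      · rw [h]
        by_contra hS
        obtain ⟨T, n1, n2, n3, -, -⟩ := exists_gen (W := W) (0 : Ept W M) (-red v (P + Q))
          (-red v P) 0 0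
        have b1 : red v (P + cst Ω T) = red v P + cst M T :=
          claimB T hP (fun h0 => n3 (eq_neg_of_add_eq_zero_right h0))
        have b2 : red v (P + Q + cst Ω T) = red v (P + Q) + cst M T :=
          claimB T hS (fun h0 => n2 (eq_neg_of_add_eq_zero_right h0))
        have b3 : red v (P + cst Ω T + Q) = red v (P + cst Ω T) + red v Q := by
          refine add1 ?_ hQ ?_
          · rw [b1]
            exact fun h0 => n3 (eq_neg_of_add_eq_zero_right h0)
          · rw [b1, add_right_comm, h, zero_add]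
            exact n1
        have e : P + Q + cst Ω T = P + cst Ω T + Q := by abel
        rw [e, b3, b1, add_right_comm, h, zero_add] at b2
        exact hS (by simpa using b2.symm)
      · exact add1 hP hQ h

end Main

end RED_

open RED_ in
/-- the reduction homomorphism -/
theorem t_RED : S_RED := by
  intro F _ _ _ W _ Ω M _ _ _ _ v
  refine ⟨{ toFun := red v, map_zero' := red_zero, map_add' := red_add }, ?_, ?_⟩
  · intro x y h hx hy
    have rx : Rel v x (v.π ⟨x, hx⟩) := ⟨hx, rfl⟩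
    have ry : Rel v y (v.π ⟨y, hy⟩) := ⟨hy, rfl⟩
    exact ⟨onC_rel h rx ry, red_eq (Or.inl ⟨x, y, _, _, h, onC_rel h rx ry, rx, ry, rfl, rfl⟩)⟩
  · intro x y h hx
    exact red_eq (Or.inr ⟨rfl, Or.inr ⟨x, y, h, hx, rfl⟩⟩)

end Pool.Agent.N203.ZE
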