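import Pool.Agent.N203.ZE.Stm

/-!
# Specialisation of relations between points
-/

set_option autoImplicit false
set_option linter.unusedSectionVars false

namespace Pool.Agent.N203.ZE

open Pool.Agent.N101.ZP (Sp)

namespace Spc

theorem mem_of_sq_mem {Ω : Type} [Field Ω] (O : ValuationSubring Ω) {y : Ω} (h : y ^ 2 ∈ O) :
    y ∈ O := by
  rcases O.mem_or_inv_mem y with h1 | h1
  · exact h1
  · by_cases hy : y = 0
    · rw [hy]
      exact O.zero_mem
    · have e : y = y ^ 2 * y⁻¹ := by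
        field_simp
      rw [e]
      exact O.mul_mem _ _ h h1

variable {F : Type} [Field F] {W : WeierstrassCurve F} [Ell W] {M : Type} [Field M] [Algebra F M]

theorem eq_or_neg' {x x' y y' : M} (h : OnC W x y) (h' : OnC W x' y') (hx : x = x') :
    mkp h = mkp h' ∨ mkp h = -mkp h' := by
  subst hx
  exact eq_or_neg h h'

end Spc

open Spc in
/-- relations between points are preserved by specialisations -/
theorem t_SPEC (hR : S_RED) (hP : S_PLACE) : S_SPEC := by
  intro F _ _ _ W _ K L ι _ _ _ _ _ p p' hSp P P' hPx hP'x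
  obtain ⟨M, _, _, g, v, hv⟩ := hP F K L ι p p' hSp
  obtain ⟨red, hred, -⟩ := hR F W K M v
  choose y hy hPy using hPx
  choose y' hy' hPy' using hP'x
  have hyO : ∀ i, y i ∈ v.O := by
    intro i
    obtain ⟨hx, -⟩ := hv i
    apply mem_of_sq_mem
    have h1 : y i ^ 2 = p i ^ 3 + algebraMap F K W.a₂ * p i ^ 2 + algebraMap F K W.a₄ * p i +
      algebraMap F K W.a₆ := hy i
    rw [h1]
    exact v.O.add_mem _ _ (v.O.add_mem _ _ (v.O.add_mem _ _ (pow_mem hx 3)
      (v.O.mul_mem _ _ (v.alg _) (pow_mem hx 2))) (v.O.mul_mem _ _ (v.alg _) hx)) (v.alg _)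
  have key : ∀ i, ∃ e : ℤ, (e = 1 ∨ e = -1) ∧ red (P i) = e • Ept.map W g (P' i) := by
    intro i
    obtain ⟨hx, hxe⟩ := hv i
    obtain ⟨h', he⟩ := hred (p i) (y i) (hy i) hx (hyO i)
    rw [hPy i, hPy' i, he, map_mkp]
    rcases eq_or_neg' h' ((hy' i).map g) hxe with h1 | h1
    · exact ⟨1, Or.inl rfl, by rw [h1, one_smul]⟩
    · exact ⟨-1, Or.inr rfl, by rw [h1, neg_smul, one_smul]⟩
  choose ε hε hrP using key
  refine ⟨ε, hε, fun b t h => ?_⟩
  apply Ept.map_injective (W := W) g
  have h1 := congrArg red h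
  have hconst : red (Ept.map W (Algebra.ofId F K) t) = Ept.map W (Algebra.ofId F M) t := by
    rcases Ept.cases (W := W) (K := F) t with ht | ⟨c, d, hcd, ht⟩
    · rw [ht, map_zero, map_zero, map_zero]
    · rw [ht, map_mkp, map_mkp]
      obtain ⟨h', he⟩ := hred (Algebra.ofId F K c) (Algebra.ofId F K d) (hcd.map _) (v.alg c)
        (v.alg d)
      rw [he, mkp_inj]
      exact ⟨v.map_alg c, v.map_alg d⟩
  have hcomp : Ept.map W (Algebra.ofId F M) t = Ept.map W g (Ept.map W (Algebra.ofId F L) t) := by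
    rw [Ept.map_comp]
    congr 2
    exact AlgHom.ext fun c => (g.commutes c).symm
  rw [hconst, hcomp, map_sum] at h1
  rw [← h1, map_sum]
  refine Finset.sum_congr rfl fun i _ => ?_
  rw [map_zsmul, map_zsmul, hrP i, smul_smul]

end Pool.Agent.N203.ZE
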