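import Pool.Agent.N203.ZE.Sum
import Pool.Agent.N101.ZP.Pt

/-!
# Statements: places, reduction, points of order `2^k`, specialisation of relations
-/

set_option autoImplicit false
set_option linter.unusedSectionVars false

namespace Pool.Agent.N203.ZE

open Pool.Agent.N101.ZP (Sp)

/-- A place of the field `Ω` over `F` with values in the field `M`: a valuation ring `O` with a
homomorphism to `M` whose kernel is the maximal ideal, compatible with the constants. -/
structure Place (F Ω M : Type) [Field F] [Field Ω] [Algebra F Ω] [Field M] [Algebra F M] where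
  O : ValuationSubring Ω
  π : O →+* M
  loc : ∀ a : O, π a ≠ 0 → ((a : Ω))⁻¹ ∈ O
  alg : ∀ c : F, algebraMap F Ω c ∈ O
  map_alg : ∀ c : F, π ⟨algebraMap F Ω c, alg c⟩ = algebraMap F M c

/-- existence of places (the index set may be infinite) -/
def S_PLACE : Prop :=
  ∀ (F Ω L ι : Type) [Field F] [Field Ω] [Field L] [Algebra F Ω] [Algebra F L] (p : ι → Ω)
    (p' : ι → L), Sp F p p' → ∃ (M : Type) (_ : Field M) (_ : Algebra F M) (g : L →ₐ[F] M)
      (v : Place F Ω M), ∀ i, ∃ h : p i ∈ v.O, v.π ⟨p i, h⟩ = g (p' i)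

/-- the reduction homomorphism of an elliptic curve with constant coefficients -/
def S_RED : Prop :=
  ∀ (F : Type) [Field F] [IsAlgClosed F] [CharZero F] (W : WeierstrassCurve F) [Ell W]
    (Ω M : Type) [Field Ω] [Algebra F Ω] [Field M] [Algebra F M] (v : Place F Ω M),
    ∃ red : Ept W Ω →+ Ept W M,
      (∀ (x y : Ω) (h : OnC W x y) (hx : x ∈ v.O) (hy : y ∈ v.O),
        ∃ h' : OnC W (v.π ⟨x, hx⟩) (v.π ⟨y, hy⟩), red (mkp h) = mkp h') ∧
      (∀ (x y : Ω) (h : OnC W x y), x ∉ v.O → red (mkp h) = 0)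

/-- points of order `2^k` -/
def S_ORD : Prop :=
  ∀ (F : Type) [Field F] [CharZero F] (W : WeierstrassCurve F) [Ell W]
    (K : Type) [Field K] [Algebra F K] [IsAlgClosed K] (k : ℕ), ∃ P : Ept W K, addOrderOf P = 2 ^ k

/-- the first coordinate of the point `P` is `x` -/
def HasX {F : Type} [Field F] {W : WeierstrassCurve F} {K : Type} [Field K] [Algebra F K] [Ell W]
    (P : Ept W K) (x : K) : Prop := ∃ (y : K) (h : OnC W x y), P = mkp h

/-- relations between points are preserved by specialisations of the first coordinates, up to the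
signs of the points -/
def S_SPEC : Prop :=
  ∀ (F : Type) [Field F] [IsAlgClosed F] [CharZero F] (W : WeierstrassCurve F) [Ell W]
    (K L ι : Type) [Fintype ι] [Field K] [Algebra F K] [Field L] [Algebra F L] (p : ι → K)
    (p' : ι → L), Sp F p p' → ∀ (P : ι → Ept W K) (P' : ι → Ept W L), (∀ i, HasX (P i) (p i)) →
    (∀ i, HasX (P' i) (p' i)) → ∃ ε : ι → ℤ, (∀ i, ε i = 1 ∨ ε i = -1) ∧
      ∀ (b : ι → ℤ) (t : Ept W F), ∑ i, b i • P i = Ept.map W (Algebra.ofId F K) t →
        ∑ i, (b i * ε i) • P' i = Ept.map W (Algebra.ofId F L) t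

/-- points which are dependent on points with given first coordinates -/
def S_ALG : Prop :=
  ∀ (F : Type) [Field F] [IsAlgClosed F] [CharZero F] (W : WeierstrassCurve F) [Ell W]
    (K ι : Type) [Fintype ι] [Field K] [Algebra F K] [IsAlgClosed K] (p : ι → K)
    (P : ι → Ept W K) (q : K) (Q : Ept W K), (∀ i, HasX (P i) (p i)) → HasX Q q →
    ∀ (N : ℕ), 0 < N → ∀ c : ι → ℤ, N • Q = ∑ i, c i • P i →
      IsAlgebraic (Algebra.adjoin F (Set.range p)) q

end Pool.Agent.N203.ZE
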