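import Pool.Agent.N203.ZE.Base

/-!
# The first coordinates of `P + Q` and `P - Q`
-/

set_option autoImplicit false
set_option linter.unusedSectionVars false

namespace Pool.Agent.N203.ZE

variable {F : Type} [Field F] {W : WeierstrassCurve F} {K : Type} [Field K] [Algebra F K] [Ell W]

/-- **The first coordinates of the sum and of the difference of two points.** -/
theorem sum_prod {x₁ y₁ x₂ y₂ : K} (h₁ : OnC W x₁ y₁) (h₂ : OnC W x₂ y₂) (hx : x₁ ≠ x₂) :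
    ∃ (X Y X' Y' : K) (h : OnC W X Y) (h' : OnC W X' Y'), mkp h₁ + mkp h₂ = mkp h ∧
      mkp h₁ - mkp h₂ = mkp h' ∧
      (X + X') * (x₁ - x₂) ^ 2 = 2 * ((x₁ * x₂ + algebraMap F K W.a₄) * (x₁ + x₂) +
        2 * algebraMap F K W.a₂ * (x₁ * x₂) + 2 * algebraMap F K W.a₆) ∧
      X * X' * (x₁ - x₂) ^ 2 = (x₁ * x₂ - algebraMap F K W.a₄) ^ 2 -
        4 * algebraMap F K W.a₆ * (x₁ + x₂ + algebraMap F K W.a₂) := by
  obtain ⟨h, e⟩ := add_mkp h₁ h₂ hx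
  obtain ⟨h', e'⟩ := add_mkp h₁ h₂.neg hx
  refine ⟨_, _, _, _, h, h', e, ?_, ?_, ?_⟩
  · rw [sub_eq_add_neg, neg_mkp, e']
  · have hd : x₁ - x₂ ≠ 0 := sub_ne_zero.2 hx
    have q₁ : y₁ ^ 2 = x₁ ^ 3 + algebraMap F K W.a₂ * x₁ ^ 2 + algebraMap F K W.a₄ * x₁ +
      algebraMap F K W.a₆ := h₁
    have q₂ : y₂ ^ 2 = x₂ ^ 3 + algebraMap F K W.a₂ * x₂ ^ 2 + algebraMap F K W.a₄ * x₂ +
      algebraMap F K W.a₆ := h₂
    generalize algebraMap F K W.a₂ = a at *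
    generalize algebraMap F K W.a₄ = b at *
    generalize algebraMap F K W.a₆ = c at *
    have h5 : (((y₁ - y₂) / (x₁ - x₂)) ^ 2 - a - x₁ - x₂ +
        (((y₁ - -y₂) / (x₁ - x₂)) ^ 2 - a - x₁ - x₂)) * (x₁ - x₂) ^ 2 =
        2 * (y₁ ^ 2 + y₂ ^ 2) - 2 * (a + x₁ + x₂) * (x₁ - x₂) ^ 2 := by
      field_simp
      ring
    rw [h5, q₁, q₂]
    ring
  · have hd : x₁ - x₂ ≠ 0 := sub_ne_zero.2 hx
    have q₁ : y₁ ^ 2 = x₁ ^ 3 + algebraMap F K W.a₂ * x₁ ^ 2 + algebraMap F K W.a₄ * x₁ +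
      algebraMap F K W.a₆ := h₁
    have q₂ : y₂ ^ 2 = x₂ ^ 3 + algebraMap F K W.a₂ * x₂ ^ 2 + algebraMap F K W.a₄ * x₂ +
      algebraMap F K W.a₆ := h₂
    generalize algebraMap F K W.a₂ = a at *
    generalize algebraMap F K W.a₄ = b at *
    generalize algebraMap F K W.a₆ = c at *
    have h5 : (((y₁ - y₂) / (x₁ - x₂)) ^ 2 - a - x₁ - x₂) *
        (((y₁ - -y₂) / (x₁ - x₂)) ^ 2 - a - x₁ - x₂) * (x₁ - x₂) ^ 2 * (x₁ - x₂) ^ 2 =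
        (y₁ ^ 2 - y₂ ^ 2) ^ 2 - (a + x₁ + x₂) * (x₁ - x₂) ^ 2 * (2 * (y₁ ^ 2 + y₂ ^ 2)) +
          (a + x₁ + x₂) ^ 2 * (x₁ - x₂) ^ 4 := by
      field_simp
      ring
    refine mul_right_cancel₀ (pow_ne_zero 2 hd) (h5.trans ?_)
    rw [q₁, q₂]
    ring

end Pool.Agent.N203.ZE
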